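import Mathlib

/-!
# Alternate scaling of a positive matrix ends after at most two scalings or never

Suppose `B` is row stochastic, `C` is its column scaling and `D`, the row scaling of `C`, is doubly
stochastic. Let `ρ i` be the row sums of `C`. Then the sum of the `ρ i` and the sum of the `1 / ρ i` are
both equal to `n`, so all `ρ i` are equal to `1` and `C` is already doubly stochastic.
-/

set_option autoImplicit false

namespace Pool.Agent.Results.MP_407c22_co.AtMostTwo

open Finset

variable {n : ℕ}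

/-- The row scaling `R(A)`: each row is divided by its sum. -/
noncomputable def rowScale (A : Matrix (Fin n) (Fin n) ℝ) : Matrix (Fin n) (Fin n) ℝ :=
  fun i j => A i j / ∑ k, A i k

/-- The column scaling `C(A)`: each column is divided by its sum. -/
noncomputable def colScale (A : Matrix (Fin n) (Fin n) ℝ) : Matrix (Fin n) (Fin n) ℝ :=
  fun i j => A i j / ∑ k, A k j

/-- The alternate scaling sequence: `A_0 = A`, `A_{2k+1} = R(A_{2k})`, `A_{2k+2} = C(A_{2k+1})`. -/
noncomputable def scaleSeq (A : Matrix (Fin n) (Fin n) ℝ) : ℕ → Matrix (Fin n) (Fin n) ℝ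
  | 0 => A
  | k + 1 => if Even k then rowScale (scaleSeq A k) else colScale (scaleSeq A k)

/-- Doubly stochastic: nonnegative entries, all row sums and all column sums equal to `1`. -/
def IsDoublyStochastic (A : Matrix (Fin n) (Fin n) ℝ) : Prop :=
  (∀ i j, 0 ≤ A i j) ∧ (∀ i, ∑ j, A i j = 1) ∧ (∀ j, ∑ i, A i j = 1)

open Classical in
/-- `A` requires exactly `L` scalings: the sequence reaches a doubly stochastic matrix, `N` is the
first index at which this happens, and exactly `L` of the `N` steps up to `N` change the matrix. -/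
def RequiresExactly (A : Matrix (Fin n) (Fin n) ℝ) (L : ℕ) : Prop :=
  ∃ N : ℕ, IsDoublyStochastic (scaleSeq A N) ∧ (∀ k < N, ¬ IsDoublyStochastic (scaleSeq A k)) ∧
    ((Finset.Icc 1 N).filter (fun k => scaleSeq A k ≠ scaleSeq A (k - 1))).card = L

theorem row_pos {A : Matrix (Fin n) (Fin n) ℝ} (hA : ∀ i j, 0 < A i j) (i : Fin n) :
    0 < ∑ k, A i k :=
  Finset.sum_pos (fun k _ => hA i k) ⟨i, mem_univ i⟩

theorem col_pos {A : Matrix (Fin n) (Fin n) ℝ} (hA : ∀ i j, 0 < A i j) (j : Fin n) :
    0 < ∑ k, A k j :=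
  Finset.sum_pos (fun k _ => hA k j) ⟨j, mem_univ j⟩

theorem rowScale_pos {A : Matrix (Fin n) (Fin n) ℝ} (hA : ∀ i j, 0 < A i j) (i j : Fin n) :
    0 < rowScale A i j := div_pos (hA i j) (row_pos hA i)

theorem colScale_pos {A : Matrix (Fin n) (Fin n) ℝ} (hA : ∀ i j, 0 < A i j) (i j : Fin n) :
    0 < colScale A i j := div_pos (hA i j) (col_pos hA j)

theorem rowScale_sum {A : Matrix (Fin n) (Fin n) ℝ} (hA : ∀ i j, 0 < A i j) (i : Fin n) :
    ∑ j, rowScale A i j = 1 := by
  unfold rowScale
  rw [← Finset.sum_div, div_self (row_pos hA i).ne']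

theorem colScale_sum {A : Matrix (Fin n) (Fin n) ℝ} (hA : ∀ i j, 0 < A i j) (j : Fin n) :
    ∑ i, colScale A i j = 1 := by
  unfold colScale
  rw [← Finset.sum_div, div_self (col_pos hA j).ne']

/-- the key step -/
theorem key_row {B : Matrix (Fin n) (Fin n) ℝ} (hB : ∀ i j, 0 < B i j) (hB1 : ∀ i, ∑ j, B i j = 1)
    (hD : IsDoublyStochastic (rowScale (colScale B))) : IsDoublyStochastic (colScale B) := by
  set C := colScale B with hC
  have hCpos : ∀ i j, 0 < C i j := colScale_pos hB
  have hCcol : ∀ j, ∑ i, C i j = 1 := colScale_sum hB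
  set ρ : Fin n → ℝ := fun i => ∑ k, C i k with hρ
  have hρpos : ∀ i, 0 < ρ i := fun i => row_pos hCpos i
  set c : Fin n → ℝ := fun j => ∑ k, B k j with hc
  have hcpos : ∀ j, 0 < c j := fun j => col_pos hB j
  have hsumρ : ∑ i, ρ i = n := by
    have h1 : ∑ i, ρ i = ∑ j, ∑ i, C i j := Finset.sum_comm
    rw [h1, Finset.sum_congr rfl fun j _ => hCcol j]
    simp
  have hsumc : ∑ j, c j = n := by
    have h1 : ∑ j, c j = ∑ i, ∑ j, B i j := Finset.sum_comm
    rw [h1, Finset.sum_congr rfl fun j _ => hB1 j]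
    simp
  have hBD : ∀ i j, B i j = ρ i * (rowScale C i j * c j) := by
    intro i j
    have h1 : C i j = B i j / c j := rfl
    have h2 : rowScale C i j = C i j / ρ i := rfl
    rw [h2, h1]
    have h3 := (hρpos i).ne'
    have h4 := (hcpos j).ne'
    field_simp
  have hinv : ∀ i, ∑ j, rowScale C i j * c j = 1 / ρ i := by
    intro i
    have h1 := hB1 i
    rw [Finset.sum_congr rfl fun j _ => hBD i j, ← Finset.mul_sum] at h1
    rw [eq_div_iff (hρpos i).ne', mul_comm]
    exact h1
  have hsuminv : ∑ i, 1 / ρ i = n := by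
    rw [← hsumc, ← Finset.sum_congr rfl fun i _ => hinv i, Finset.sum_comm]
    apply Finset.sum_congr rfl
    intro j _
    rw [← Finset.sum_mul, hD.2.2 j, one_mul]
  have hzero : ∑ i, (ρ i + 1 / ρ i - 2) = 0 := by
    rw [Finset.sum_sub_distrib, Finset.sum_add_distrib, hsumρ, hsuminv]
    simp
    ring
  have hnonneg : ∀ i ∈ univ, 0 ≤ ρ i + 1 / ρ i - 2 := by
    intro i _
    have h1 := hρpos i
    have h2 : ρ i + 1 / ρ i - 2 = (ρ i - 1) ^ 2 / ρ i := by
      field_simp; ring
    rw [h2]; positivity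
  have hall := (Finset.sum_eq_zero_iff_of_nonneg hnonneg).1 hzero
  have hρ1 : ∀ i, ρ i = 1 := by
    intro i
    have h1 := hρpos i
    have h2 : ρ i + 1 / ρ i - 2 = (ρ i - 1) ^ 2 / ρ i := by
      field_simp; ring
    have h3 := hall i (mem_univ i)
    rw [h2, div_eq_zero_iff] at h3
    rcases h3 with h3 | h3
    · have := pow_eq_zero_iff (two_ne_zero) |>.1 h3
      linarith
    · exact absurd h3 h1.ne'
  exact ⟨fun i j => (hCpos i j).le, hρ1, hCcol⟩

theorem transpose_rowScale (A : Matrix (Fin n) (Fin n) ℝ) :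
    rowScale A.transpose = (colScale A).transpose := rfl

theorem transpose_colScale (A : Matrix (Fin n) (Fin n) ℝ) :
    colScale A.transpose = (rowScale A).transpose := rfl

theorem ds_transpose (A : Matrix (Fin n) (Fin n) ℝ) :
    IsDoublyStochastic A.transpose ↔ IsDoublyStochastic A := by
  unfold IsDoublyStochastic
  constructor
  · rintro ⟨h1, h2, h3⟩
    exact ⟨fun i j => h1 j i, h3, h2⟩
  · rintro ⟨h1, h2, h3⟩
    exact ⟨fun i j => h1 j i, h3, h2⟩

theorem key_col {B : Matrix (Fin n) (Fin n) ℝ} (hB : ∀ i j, 0 < B i j) (hB1 : ∀ j, ∑ i, B i j = 1)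
    (hD : IsDoublyStochastic (colScale (rowScale B))) : IsDoublyStochastic (rowScale B) := by
  have h := key_row (B := B.transpose) (fun i j => hB j i) hB1
  rw [transpose_colScale, transpose_rowScale, ds_transpose, ds_transpose] at h
  exact h hD

theorem scaleSeq_pos {A : Matrix (Fin n) (Fin n) ℝ} (hA : ∀ i j, 0 < A i j) (k : ℕ) :
    ∀ i j, 0 < scaleSeq A k i j := by
  induction k with
  | zero => exact hA
  | succ k ih =>
    intro i j
    rw [scaleSeq]
    split_ifs
    · exact rowScale_pos ih i j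
    · exact colScale_pos ih i j

/-- No positive matrix requires exactly `L` scalings if `L ≥ 3`. -/
theorem result (n L : ℕ) (hL : 3 ≤ L) :
    ¬ ∃ A : Matrix (Fin n) (Fin n) ℝ, (∀ i j, 0 < A i j) ∧ RequiresExactly A L := by
  rintro ⟨A, hA, N, hN, hmin, hcard⟩
  have hNL : 3 ≤ N := by
    calc 3 ≤ L := hL
      _ ≤ (Finset.Icc 1 N).card := by rw [← hcard]; exact Finset.card_filter_le _ _
      _ = N := by simp
  obtain ⟨k, rfl⟩ : ∃ k, N = k + 3 := ⟨N - 3, by omega⟩
  have hpos := scaleSeq_pos hA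
  apply hmin (k + 2) (by omega)
  rcases Nat.even_or_odd k with hk | hk
  · -- `A_{k+1}` is row stochastic
    have e1 : scaleSeq A (k + 1) = rowScale (scaleSeq A k) := by rw [scaleSeq, if_pos hk]
    have h1 : ¬ Even (k + 1) := by rw [Nat.even_add_one]; exact fun h => h hk
    have h2 : Even (k + 2) := by rw [Nat.even_add]; simp [hk]
    have e2 : scaleSeq A (k + 2) = colScale (scaleSeq A (k + 1)) := by
      rw [scaleSeq, if_neg h1]
    have e3 : scaleSeq A (k + 3) = rowScale (scaleSeq A (k + 2)) := by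
      rw [scaleSeq, if_pos h2]
    rw [e2]
    apply key_row (hpos (k + 1))
    · intro i
      rw [e1]
      exact rowScale_sum (hpos k) i
    · rw [← e2, ← e3]; exact hN
  · have hk' : ¬ Even k := Nat.not_even_iff_odd.2 hk
    have e1 : scaleSeq A (k + 1) = colScale (scaleSeq A k) := by rw [scaleSeq, if_neg hk']
    have h1 : Even (k + 1) := by rw [Nat.even_add_one]; exact hk'
    have h2 : ¬ Even (k + 2) := by rw [Nat.even_add]; simp [hk']
    have e2 : scaleSeq A (k + 2) = rowScale (scaleSeq A (k + 1)) := by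
      rw [scaleSeq, if_pos h1]
    have e3 : scaleSeq A (k + 3) = colScale (scaleSeq A (k + 2)) := by
      rw [scaleSeq, if_neg h2]
    rw [e2]
    apply key_col (hpos (k + 1))
    · intro i
      rw [e1]
      exact colScale_sum (hpos k) i
    · rw [← e2, ← e3]; exact hN

end Pool.Agent.Results.MP_407c22_co.AtMostTwo
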